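import Pool.Agent.H379R3.CDQ.Stmts

set_option autoImplicit false

namespace Pool.Agent.H379R3.CDQ

theorem taskFix : TaskFix := by
  classical
  intro G _ _ _ _ M _ _ _ hdisc hpro heven
  have : Fact (Nat.Prime 2) := ⟨Nat.prime_two⟩
  let X : AddSubgroup M := (nsmulAddMonoidHom (α := M) 2).ker
  have hX : ∀ x : M, x ∈ X ↔ 2 • x = 0 := by
    intro x
    simp only [X, AddMonoidHom.mem_ker, nsmulAddMonoidHom_apply]
  have hsm : ∀ (g : G) (x : M), x ∈ X → g • x ∈ X := by
    intro g x hx
    rw [hX] at hx ⊢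
    rw [two_nsmul] at hx ⊢
    rw [← smul_add, hx, smul_zero]
  let act : MulAction G X :=
    { smul := fun g x => ⟨g • (x : M), hsm g x x.2⟩
      one_smul := fun x => Subtype.ext (one_smul G (x : M))
      mul_smul := fun g h x => Subtype.ext (mul_smul g h (x : M)) }
  have hact : ∀ (g : G) (x : X), ((g • x : X) : M) = g • (x : M) := fun g x => rfl
  let φ : G →* Equiv.Perm X := MulAction.toPermHom G X
  have hker : IsOpen (φ.ker : Set G) := by
    have h1 : (φ.ker : Set G) = ⋂ x : X, (MulAction.stabilizer G (x : M) : Set G) := by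
      ext g
      simp only [SetLike.mem_coe, MonoidHom.mem_ker, Set.mem_iInter, MulAction.mem_stabilizer_iff]
      constructor
      · intro h x
        have := congrArg (fun e : Equiv.Perm X => ((e x : X) : M)) h
        exact this
      · intro h
        ext x
        exact h x
    rw [h1]
    exact isOpen_iInter_of_finite (fun x => hdisc (x : M))
  obtain ⟨m, hm⟩ := hpro φ.ker hker
  have hP : IsPGroup 2 φ.range := by
    rw [IsPGroup.iff_card]
    exact ⟨m, by rw [← Subgroup.index_ker, hm]⟩
  have hdvd : 2 ∣ Nat.card X := by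
    obtain ⟨x, hx⟩ := exists_prime_addOrderOf_dvd_card' (G := M) 2 heven.two_dvd
    have hxX : x ∈ X := by
      rw [hX, ← hx]
      exact addOrderOf_nsmul_eq_zero x
    have h2 : addOrderOf (⟨x, hxX⟩ : X) = 2 := by
      rw [AddSubgroup.addOrderOf_mk, hx]
    rw [← h2]
    exact addOrderOf_dvd_natCard _
  have h0 : (0 : X) ∈ MulAction.fixedPoints φ.range X := by
    rintro ⟨_, g, rfl⟩
    apply Subtype.ext
    exact smul_zero g
  obtain ⟨b, hb, hb0⟩ := hP.exists_fixed_point_of_prime_dvd_card_of_fixed_point X hdvd h0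
  refine ⟨(b : M), ?_, (hX _).mp b.2, ?_⟩
  · intro h
    exact hb0 (Subtype.ext h.symm)
  · intro g
    have := hb ⟨φ g, g, rfl⟩
    exact congrArg (fun y : X => (y : M)) this

end Pool.Agent.H379R3.CDQ
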